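import Pool.Agent.H91.HS.Glob

/-!
# The Hilbert-Smith conjecture for actions which preserve flags of foliations or turn by less than
# the angle `arccos (-1 / (n - 1))`

Let `X` be a Hausdorff space with a dense connected set `R` of points with locally Euclidean
neighbourhoods. Let a locally compact group `G` act faithfully and continuously on `X`. Every point
`x` of `R` is supposed to have a topological chart `φ` with values in a product of Euclidean spaces of
dimensions `d 0, ..., d (r-1)` and a neighbourhood `V` of the identity, both depending on `x`, such
that near `x` the elements of `V` respect the flag of foliations of the chart (the first `i` blocks of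
`φ (g y)` are functions of the first `i` blocks of `φ y`), and such that for every block

* `d i = 1`, and nothing else is assumed (so all actions which preserve complete flags of
  topological foliations are covered); or
* for two points which differ in the `i`-th block, but in no block before it, no convex combination
  of `d i` elements of `V` makes their `i`-th blocks equal; or
* the elements of `V` turn the difference of the `i`-th blocks of such a pair by an angle less than
  `arccos (-1 / (d i - 1))` (so for `d i = 2` they only must not reverse it).

Then `G` is a Lie group. The maps need not be differentiable, Lipschitz, Sobolev or quasiconformal,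
and the charts need not be compatible. With one block of dimension `n` the last condition improves
the angle `arccos (-1 / n)` of an earlier theorem to `arccos (-1 / (n - 1))`.

Proof (files in `Pool/Agent/H91/HS/`). It is enough to show that a small profinite group `K` acts
trivially near a regular point. By induction it moves the points in one block only. If `p` is moved
to `k p`, continue the segment from `p` to `k p` to a ray `z t`, with `z 0 = k p`. The mean of
`g p - g (z 0)` over `K` vanishes, so these vectors lie in no open half space; but for large `t` the
vectors `g p - g (z t)` do. At the last bad time the compact set of these vectors touches a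
hyperplane through its origin and has `0` in its convex hull, so by Caratheodory's theorem in that
hyperplane `0` is a convex combination of only `d i` of these vectors. This contradicts the
injectivity, and vectors with mutual angles less than `arccos (-1 / (d - 1))` have no vanishing
convex combination of `d` terms.
-/

namespace Pool.Agent.Results.MP_afaf30_gt.FlagsAndConvexCombinations

open Set Filter Topology
open scoped RealInnerProductSpace

variable {r : ℕ} {d : Fin r → ℕ}

/-- The elements of `V` respect, on `W`, the flag of the chart `φ`: the blocks up to the `i`-th of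
the image are functions of the blocks up to the `i`-th. -/
def Flag {X G : Type} [SMul G X] (φ : X → ∀ i, EuclideanSpace ℝ (Fin (d i))) (V : Set G)
    (W : Set X) : Prop :=
  ∀ g ∈ V, ∀ y ∈ W, ∀ z ∈ W, g • y ∈ W → g • z ∈ W → ∀ i, (∀ j ≤ i, φ y j = φ z j) →
    φ (g • y) i = φ (g • z) i

/-- Convex combinations of `d i` elements of `V` do not identify the `i`-th blocks of two points of
`W` whose first different block is the `i`-th one. -/
def ConvInj {X G : Type} [SMul G X] (φ : X → ∀ i, EuclideanSpace ℝ (Fin (d i))) (V : Set G)
    (W : Set X) (i : Fin r) : Prop :=
  ∀ y ∈ W, ∀ z ∈ W, (∀ j < i, φ y j = φ z j) → φ y i ≠ φ z i →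
    ∀ (g : Fin (d i) → G) (t : Fin (d i) → ℝ),
      (∀ k, g k ∈ V ∧ g k • y ∈ W ∧ g k • z ∈ W ∧ 0 ≤ t k) → ∑ k, t k = 1 →
        ∑ k, t k • φ (g k • y) i ≠ ∑ k, t k • φ (g k • z) i

/-- The elements of `V` turn the difference of the `i`-th blocks of two points of `W` whose first
different block is the `i`-th one by an angle less than `arccos (-1 / (d i - 1))`. -/
def Turns {X G : Type} [SMul G X] (φ : X → ∀ i, EuclideanSpace ℝ (Fin (d i))) (V : Set G)
    (W : Set X) (i : Fin r) : Prop :=
  2 ≤ d i ∧ ∀ g ∈ V, ∀ y ∈ W, ∀ z ∈ W, g • y ∈ W → g • z ∈ W → (∀ j < i, φ y j = φ z j) →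
    φ y i ≠ φ z i →
      -(1 / ((d i : ℝ) - 1)) * (‖φ (g • y) i - φ (g • z) i‖ * ‖φ y i - φ z i‖) <
        ⟪φ (g • y) i - φ (g • z) i, φ y i - φ z i⟫

/-- The Hilbert-Smith conjecture for actions which locally preserve flags. -/
theorem result :
    ∀ (X : Type) [TopologicalSpace X] [T2Space X] (R : Set X), Dense R → IsPreconnected R →
      ∀ (G : Type) [Group G] [TopologicalSpace G] [IsTopologicalGroup G] [LocallyCompactSpace G]
        [MulAction G X] [ContinuousSMul G X] [FaithfulSMul G X],
        (∀ x ∈ R, ∃ V ∈ 𝓝 (1 : G), ∃ (r : ℕ) (d : Fin r → ℕ)
          (φ : OpenPartialHomeomorph X (∀ i, EuclideanSpace ℝ (Fin (d i)))),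
          ∃ W ∈ 𝓝 x, W ⊆ φ.source ∧ Flag (fun y => φ y) V W ∧
            ∀ i, d i = 1 ∨ ConvInj (fun y => φ y) V W i ∨ Turns (fun y => φ y) V W i) →
        ∃ (m : ℕ) (_ : ChartedSpace (EuclideanSpace ℝ (Fin m)) G),
          LieGroup (modelWithCornersSelf ℝ (EuclideanSpace ℝ (Fin m)))
            ((⊤ : ℕ∞) : WithTop ℕ∞) G := by
  intro X _ _ R hd hc G _ _ _ _ _ _ _ hR
  exact Pool.Agent.H91.HS.lie_main R hd hc hR

end Pool.Agent.Results.MP_afaf30_gt.FlagsAndConvexCombinations
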